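import Pool.Agent.MP_cce4c9_lc.H7.Spec

/-! Places in Galois extensions of function fields. -/

set_option autoImplicit false

open WithZero Module
open scoped IntermediateField

namespace Pool.Agent.MP_cce4c9_lc.H30

open Pool.Agent.MP_cce4c9_lc.H87 Pool.Agent.MP_cce4c9_lc.H7

section Sep

variable {k F : Type} [Field k] [Field F] [Algebra k F]

theorem sep_two {v w : Place k F} (h : v ≠ w) : ∃ u : F, v.val u < 1 ∧ 1 < w.val u := by
  obtain ⟨a, ha, ha'⟩ : ∃ a, v.val a ≤ 1 ∧ 1 < w.val a := by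
    by_contra hc
    exact h (v.eq_of_le w fun x hx => not_lt.1 fun h1 => hc ⟨x, hx, h1⟩)
  obtain ⟨b, hb, hb'⟩ : ∃ b, w.val b ≤ 1 ∧ 1 < v.val b := by
    by_contra hc
    exact h (w.eq_of_le v fun x hx => not_lt.1 fun h1 => hc ⟨x, hx, h1⟩).symm
  have h0 : b ≠ 0 := fun e => by simp [e] at hb'
  refine ⟨a / b, ?_, ?_⟩ <;> rw [map_div₀]
  · exact (div_lt_one₀ (zero_lt_one.trans hb')).2 (ha.trans_lt hb')
  · exact (one_lt_div₀ (zero_lt_iff.2 (w.val_ne h0))).2 (hb.trans_lt ha')

theorem sep_pole (v : Place k F) (S : Finset (Place k F)) (h : v ∉ S) :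
    ∃ u : F, v.val u < 1 ∧ ∀ w ∈ S, 1 < w.val u := by
  classical
  induction S using Finset.induction_on with
  | empty => exact ⟨0, by simp, by simp⟩
  | insert w S hw ih =>
    rw [Finset.mem_insert, not_or] at h
    obtain ⟨u, h1, h2⟩ := ih h.2
    by_cases hc : 1 < w.val u
    · exact ⟨u, h1, Finset.forall_mem_insert _ _ _ |>.2 ⟨hc, h2⟩⟩
    obtain ⟨z, h3, h4⟩ := sep_two h.1
    have hz : z ≠ 0 := fun e => by simp [e] at h4
    obtain ⟨r, hr⟩ : ∃ r : ℕ, ∀ x ∈ S, (x.ord u).natAbs ≤ r :=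
      ⟨S.sup fun x => (x.ord u).natAbs, fun x hx => Finset.le_sup (f := fun x : Place k F =>
        (x.ord u).natAbs) hx⟩
    refine ⟨u + z ^ (r + 1), (v.val.map_add _ _).trans_lt (max_lt h1 ?_),
      Finset.forall_mem_insert _ _ _ |>.2 ⟨?_, fun x hx => ?_⟩⟩
    · rw [map_pow]
      exact pow_lt_one₀ zero_le h3 r.succ_ne_zero
    · have h5 : 1 < w.val (z ^ (r + 1)) := by
        rw [map_pow]
        exact one_lt_pow₀ h4 r.succ_ne_zero
      rwa [w.val.map_add_eq_of_lt_right ((not_lt.1 hc).trans_lt h5)]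
    · have h5 := h2 x hx
      have hu : x.val u ≠ 0 := (zero_lt_one.trans h5).ne'
      refine h5.trans_le (le_trans (le_max_left _ _) (x.val.map_add_of_distinct_val fun e => ?_).ge)
      have h6 : x.ord u = x.ord (z ^ (r + 1)) := by rw [Place.ord, e, Place.ord]
      have h7 := mt (x.val_le_one hu).2 (not_le.2 h5)
      have h8 := hr x hx
      rw [x.ord_pow] at h6
      have h9 : x.ord z ≤ -1 := by
        by_contra h9
        have : (0 : ℤ) ≤ ((r + 1 : ℕ) : ℤ) * x.ord z := mul_nonneg (by omega) (by omega)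
        omega
      have h10 := mul_le_mul_of_nonneg_left h9 (show (0 : ℤ) ≤ ((r + 1 : ℕ) : ℤ) by omega)
      omega

/-- a function with a zero at `v` that is a unit on `S` -/
theorem sep_unit (v : Place k F) (S : Finset (Place k F)) (h : v ∉ S) :
    ∃ u : F, v.val u < 1 ∧ ∀ w ∈ S, w.val u = 1 := by
  obtain ⟨u, h1, h2⟩ := sep_pole v S h
  refine ⟨u / (1 + u), ?_, fun w hw => ?_⟩
  · rwa [map_div₀, v.val.map_one_add_of_lt h1, div_one]
  · have h3 := h2 w hw
    rw [map_div₀, w.val.map_add_eq_of_lt_right (by rwa [map_one]),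
      div_self (zero_lt_one.trans h3).ne']

end Sep

variable {k K L : Type} [Field k] [Field K] [Algebra k K] [Field L] [Algebra k L] [Algebra K L]

theorem over_unique {y : Place k L} {x x' : Place k K} {e e' : ℕ} (h : Over y x e)
    (h' : Over y x' e') : x = x' ∧ e = e' := by
  obtain rfl : x = x' := x.eq_of_le x' fun a ha => by
    rw [← pow_le_one_iff h'.1.ne', ← h'.2, h.2]
    exact pow_le_one' ha e
  obtain ⟨π, hπ⟩ := x.exists_unif
  have h1 := (h.2 π).symm.trans (h'.2 π)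
  rw [hπ, ← exp_nsmul, ← exp_nsmul, exp_inj] at h1
  exact ⟨rfl, by simpa using h1⟩

variable [IsScalarTower k K L]

theorem ofAlg_val (τ : L ≃ₐ[K] L) (y : Place k L) (a : L) :
    (SA.ofAlg (k := k) τ • y).val (τ a) = y.val a := smul_val_apply _ y a

theorem ofAlg_over (τ : L ≃ₐ[K] L) {y : Place k L} {x : Place k K} {e : ℕ} (h : Over y x e) :
    Over (SA.ofAlg (k := k) τ • y) x e :=
  ⟨h.1, fun a => by rw [← h.2, ← ofAlg_val τ y, τ.commutes]⟩

theorem ofAlg_mul (τ σ : L ≃ₐ[K] L) :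
    SA.ofAlg (k := k) (τ * σ) = SA.ofAlg (k := k) τ * SA.ofAlg (k := k) σ := rfl

theorem ofAlg_one : SA.ofAlg (k := k) (1 : L ≃ₐ[K] L) = 1 := rfl

theorem trans [FiniteDimensional K L] [IsGalois K L] {y y' : Place k L} {x : Place k K}
    {e e' : ℕ} (h : Over y x e) (h' : Over y' x e') :
    ∃ τ : L ≃ₐ[K] L, SA.ofAlg (k := k) τ • y = y' := by
  classical
  by_contra hc
  obtain ⟨u, h1, h2⟩ := sep_unit y' (((Finset.univ.image fun τ : L ≃ₐ[K] L =>
    SA.ofAlg (k := k) τ • y) ∪ Finset.univ.image fun τ : L ≃ₐ[K] L =>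
      SA.ofAlg (k := k) τ • y').erase y') (Finset.notMem_erase _ _)
  have key : ∀ (w : Place k L) (τ : L ≃ₐ[K] L),
      w.val (τ u) = (SA.ofAlg (k := k) τ⁻¹ • w).val u := fun w τ => by
    rw [← ofAlg_val τ⁻¹ w, AlgEquiv.aut_inv, τ.symm_apply_apply]
  have h3 : y.val (algebraMap K L (Algebra.norm K u)) = 1 := by
    rw [Algebra.norm_eq_prod_automorphisms, map_prod]
    refine Finset.prod_eq_one fun τ _ => (key y τ).trans (h2 _ (Finset.mem_erase.2
      ⟨fun e => hc ⟨_, e⟩, Finset.mem_union_left _ (Finset.mem_image_of_mem _ (Finset.mem_univ _))⟩))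
  have h4 : y'.val (algebraMap K L (Algebra.norm K u)) < 1 := by
    rw [Algebra.norm_eq_prod_automorphisms, map_prod,
      ← Finset.mul_prod_erase _ _ (Finset.mem_univ 1)]
    refine (mul_le_of_le_one_right' (Finset.prod_le_one' fun τ _ => ?_)).trans_lt h1
    rw [key]
    by_cases e : SA.ofAlg (k := k) τ⁻¹ • y' = y'
    · rw [e]
      exact h1.le
    · exact (h2 _ (Finset.mem_erase.2 ⟨e, Finset.mem_union_right _
        (Finset.mem_image_of_mem _ (Finset.mem_univ _))⟩)).le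
  rw [h.2, pow_eq_one_iff_of_nonneg zero_le h.1.ne'] at h3
  rw [h'.2, h3, one_pow] at h4
  exact lt_irrefl _ h4

theorem unram [IsAlgClosed k] [FiniteDimensional K L] [IsGalois K L] (hE : StmtEXT)
    (hK : IsFF k K)
    (hf : ∀ (τ : L ≃ₐ[K] L) (y : Place k L), SA.ofAlg (k := k) τ • y = y → τ = 1)
    {y : Place k L} {x : Place k K} {e : ℕ} (h : Over y x e) : e = 1 := by
  obtain ⟨dn, e0, h1, h2⟩ := hE k K L hK
  obtain ⟨S, h3, h4⟩ := h2 x
  have h5 : Fintype.card (L ≃ₐ[K] L) ≤ S.card := by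
    refine Finset.card_le_card_of_injOn (fun τ => SA.ofAlg (k := k) τ • y)
      (fun τ _ => (h3 _).2 (over_unique (h1 _) (ofAlg_over τ h)).1) fun τ _ σ _ e => ?_
    have h6 := hf (σ⁻¹ * τ) y (by
      rw [ofAlg_mul, mul_smul, show SA.ofAlg (k := k) τ • y = SA.ofAlg (k := k) σ • y from e,
        ← mul_smul, ← ofAlg_mul, inv_mul_cancel, ofAlg_one, one_smul])
    exact (inv_mul_eq_one.1 h6).symm
  rw [← Nat.card_eq_fintype_card, IsGalois.card_aut_eq_finrank, ← h4, Finset.card_eq_sum_ones] at h5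
  obtain ⟨h6, rfl⟩ := over_unique (h1 y) h
  by_contra hc
  have h7 := (h1 y).1
  exact absurd h5 (not_le.2 (Finset.sum_lt_sum (fun z _ => (h1 z).1) ⟨y, (h3 y).2 h6, by omega⟩))

omit [IsScalarTower k K L] in
theorem root_const [IsAlgClosed k] {l : ℕ} (hl : l ≠ 0) {z : L} (hz : z ^ l = 1) :
    ∃ c : k, algebraMap k L c = z :=
  minpoly.mem_range_of_degree_eq_one k z (IsAlgClosed.degree_eq_one_of_irreducible k
    (minpoly.irreducible (IsIntegral.of_pow hl.bot_lt (hz ▸ isIntegral_one))))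

theorem free [IsAlgClosed k] {l : ℕ} (hl : l ≠ 0) {τ : L ≃ₐ[K] L} {y : Place k L} (hy : y.Res)
    {x : Place k K} {e : ℕ} (h : Over y x e) (hτ : SA.ofAlg (k := k) τ • y = y) {r : L} {f : K}
    (hf : f ≠ 0) (hd : (l : ℤ) ∣ x.ord f) (hr : r ^ l = algebraMap K L f) : τ r = r := by
  obtain ⟨n, hn⟩ := hd
  obtain ⟨π, hπ⟩ := x.surj (exp (-n))
  have hπ0 : π ≠ 0 := fun e => by
    rw [e, map_zero] at hπ
    exact exp_ne_zero hπ.symm
  have hπ1 : algebraMap K L π ≠ 0 := (map_ne_zero _).2 hπ0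
  have hr0 : r ≠ 0 := fun e => by
    rw [e, zero_pow hl] at hr
    exact hf ((map_eq_zero _).1 hr.symm)
  have hv : ∀ a, y.val (τ a) = y.val a := fun a => by
    conv_lhs => rw [← hτ]
    exact ofAlg_val τ y a
  obtain ⟨c, hc⟩ := root_const (k := k) hl (z := τ r / r) (by
    rw [div_pow, ← map_pow, hr, τ.commutes, div_self ((map_ne_zero _).2 hf)])
  have h1 : y.val (r / algebraMap K L π) = 1 := by
    rw [← pow_eq_one_iff_of_nonneg zero_le hl, ← map_pow, div_pow, hr, ← map_pow, ← map_div₀, h.2,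
      map_div₀, map_pow, hπ, x.val_eq (x.val_ne hf), hn, ← exp_nsmul, nsmul_eq_mul, mul_neg,
      div_self exp_ne_zero, one_pow]
  obtain ⟨d, hd⟩ := hy _ h1.le
  have h2 : y.val (τ (r / algebraMap K L π) - algebraMap k L d) < 1 := by
    rwa [← hv, map_sub, IsScalarTower.algebraMap_apply k K L, τ.commutes,
      ← IsScalarTower.algebraMap_apply] at hd
  have h3 : algebraMap k L (c - 1) * (r / algebraMap K L π) =
      (τ (r / algebraMap K L π) - algebraMap k L d) - (r / algebraMap K L π - algebraMap k L d) := by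
    rw [map_sub, hc, map_one, map_div₀, τ.commutes]
    field_simp
    ring
  have h4 : c - 1 = 0 := by
    by_contra h4
    have h5 := (y.val.map_sub _ _).trans_lt (max_lt h2 hd)
    rw [← h3, map_mul, h1, y.triv _ h4, one_mul] at h5
    exact lt_irrefl _ h5
  rw [sub_eq_zero.1 h4, map_one, eq_comm, div_eq_one_iff_eq hr0] at hc
  exact hc

theorem resL [IsAlgClosed k] [FiniteDimensional K L] (hK : IsFF k K) (y : Place k L) : y.Res := by
  intro h h1
  by_contra hc
  have h2 : ∀ c, y.val (h - algebraMap k L c) = 1 := fun c => le_antisymm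
    ((y.val.map_sub _ _).trans (max_le h1 (y.const_le c))) (not_lt.1 fun e => hc ⟨c, e⟩)
  have h3 : ∀ p : Polynomial k, p ≠ 0 → y.val (Polynomial.aeval h p) = 1 := fun p hp => by
    rw [(IsAlgClosed.splits p).eq_prod_roots, map_mul, map_mul, Polynomial.aeval_C,
      y.triv _ (Polynomial.leadingCoeff_ne_zero.2 hp), one_mul, map_multiset_prod,
      map_multiset_prod, Multiset.map_map, Multiset.map_map]
    refine Multiset.prod_eq_one fun a ha => ?_
    obtain ⟨c, -, rfl⟩ := Multiset.mem_map.1 ha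
    simpa using h2 c
  have h4 : Transcendental k h := by
    rintro ⟨p, hp, e⟩
    have := h3 p hp
    rw [e, map_zero] at this
    exact zero_ne_one this
  obtain ⟨t, -, ht⟩ := hK
  have h5 : Algebra.trdeg k L ≤ 1 := by
    have : Algebra.IsAlgebraic (Algebra.adjoin k {t}) K :=
      IntermediateField.isAlgebraic_adjoin_iff_top.1 inferInstance
    rw [← trdeg_add_eq k K (A := L), trdeg_eq_zero (R := K), add_zero]
    simpa using Algebra.IsAlgebraic.trdeg_le_cardinalMk k ({t} : Set K)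
  have h6 := ((algebraicIndependent_unique_type_iff (x := fun _ : Unit => h)).2
    h4).isTranscendenceBasis_of_trdeg_le_of_finite (by simpa using h5) |>.isAlgebraic
  rw [Set.range_const] at h6
  have : y.val.IsTrivialOn (Algebra.adjoin k {h}) := ⟨fun a ha => by
    obtain ⟨a, ha'⟩ := a
    rw [Algebra.adjoin_singleton_eq_range_aeval] at ha'
    obtain ⟨p, rfl⟩ := ha'
    exact h3 p fun e => ha (Subtype.ext (by simp [e]))⟩
  obtain ⟨π, hπ⟩ := y.exists_unif
  refine y.val.transcendental_of_ne_one (Algebra.adjoin k {h}) π (fun e => ?_) ?_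
    (h6.isAlgebraic π)
  · rw [e, map_zero] at hπ
    exact exp_ne_zero hπ.symm
  · rw [hπ, ← exp_zero, Ne, exp_inj]
    omega

theorem gal (hE : StmtEXT) : StmtGAL := by
  intro k K L _ _ _ _ _ _ _ _ _ _ hK
  refine ⟨fun y y' x e e' => trans, fun hf y x e => unram hE hK hf, fun l hl T hT hr τ y hτ => ?_⟩
  obtain ⟨dn, e, h1, -⟩ := hE k K L hK
  ext a
  have ha : a ∈ IntermediateField.adjoin K T := hT ▸ IntermediateField.mem_top
  rw [AlgEquiv.one_apply]
  induction ha using IntermediateField.adjoin_induction with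
  | mem r h =>
    obtain ⟨f, h2, h3, h4⟩ := hr r h
    exact free hl.ne_zero (resL hK y) (h1 y) hτ h2 (h3 _) h4
  | algebraMap c => exact τ.commutes c
  | add a b _ _ h2 h3 => rw [map_add, h2, h3]
  | inv a _ h2 => rw [map_inv₀, h2]
  | mul a b _ _ h2 h3 => rw [map_mul, h2, h3]

end Pool.Agent.MP_cce4c9_lc.H30
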