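import Pool.Agent.MP_cce4c9_lc.H87.SpecR

/-!
Semantics of the first polynomial system.
-/

set_option autoImplicit false

open Polynomial Pool.Agent.MP_cce4c9_lc.H87

namespace Pool.Agent.MP_cce4c9_lc.H30

/-- The equations of the first system over any ring. -/
noncomputable def eqP {R : Type} [CommRing R] (F : R[X]) (d m l : ℕ) (pat : Pat) (b : ℕ → R) :
    List R :=
  ((List.range (mm d m)).flatMap fun j => (List.range m).flatMap fun i =>
    [F.eval (xs m b j i) - F.eval (xs m b j 0),
      zs m b j i * (derivative F).eval (xs m b j i) - 1]) ++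
  ((List.range (mm d m)).map fun j =>
    if pat.2.1.getD j 0 = 1 then th (Gc d m) (F.eval (xs m b j 0)) else 0) ++
  (rowsL d m l pat.1).map (vanP F d m l b (crP F d m l b (selR d m l pat)))

theorem map_of_map {α β γ δ : Type} {f : α → γ} {g : β → γ} {h : α → δ} {k : β → δ} :
    ∀ {l₁ : List α} {l₂ : List β}, l₁.map f = l₂.map g →
      (∀ a, ∀ e ∈ l₂, f a = g e → h a = k e) → l₁.map h = l₂.map k
  | [], [], _, _ => rfl
  | [], _ :: _, e, _ => by simp at e
  | _ :: _, [], e, _ => by simp at e
  | a :: l₁, b :: l₂, e, H => by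
    rw [List.map_cons, List.map_cons, List.cons.injEq] at e
    rw [List.map_cons, List.map_cons, H a b List.mem_cons_self e.1,
      map_of_map e.2 fun a' e' he' => H a' e' (List.mem_cons_of_mem _ he')]

theorem rows_lt {d m l : ℕ} {μ : List ℕ} {ρ : ℕ × ℕ} (h : ρ ∈ rowsL d m l μ) :
    ρ.2 < l * mm d m := by
  simp only [rowsL, List.mem_flatMap, List.mem_map, List.mem_range] at h
  obtain ⟨j, -, r, hr, rfl⟩ := h
  exact hr.trans_le (Nat.mul_le_mul_left _ (min_le_right _ _))

theorem sel_lt {d m l : ℕ} {pat : Pat} {ρ : ℕ × ℕ} (h : ρ ∈ selR d m l pat) :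
    ρ.2 < l * mm d m := rows_lt (List.mem_of_mem_filter h)

theorem vanP_congr {R : Type} [CommRing R] (F : R[X]) (d m l : ℕ) (b : ℕ → R)
    {c c' : ℕ → ℕ → R} (h : ∀ e < l * N0 d m + 1, ∀ J < d ^ m, c e J = c' e J) (ρ : ℕ × ℕ) :
    vanP F d m l b c ρ = vanP F d m l b c' ρ := by
  refine Finset.sum_congr rfl fun J hJ => Finset.sum_congr rfl fun e he => ?_
  rw [h e ((Finset.mem_range.1 he).trans_le (Nat.sub_le _ _)) J (Finset.mem_range.1 hJ)]

theorem eqP_map (hN : StmtNAT) {R S : Type} [CommRing R] [CommRing S] (P : R →+* S) (F : R[X])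
    (d m l : ℕ) (pat : Pat) (b : ℕ → R) :
    (eqP F d m l pat b).map P = eqP (F.map P) d m l pat fun i => P (b i) := by
  obtain ⟨-, h2, h3⟩ := hN.1 R S P F d m l b
  have ev : ∀ (G : R[X]) (x : R), P (G.eval x) = (G.map P).eval (P x) := fun G x => by
    rw [eval_map, eval₂_at_apply]
  simp only [eqP, List.map_append, List.map_flatMap, List.map_map]
  congr 1
  · congr 1
    · refine List.flatMap_congr fun j _ => List.flatMap_congr fun i _ => ?_
      simp only [List.map_cons, List.map_nil, map_sub, map_mul, map_one, ev, derivative_map, xs,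
        zs]
    · refine List.map_congr_left fun j _ => ?_
      simp only [Function.comp_apply]
      split_ifs
      · simp only [th, map_mul, map_sub, map_pow, map_one, ev, xs]
      · exact map_zero P
  · refine List.map_congr_left fun ρ _ => ?_
    simp only [Function.comp_apply, h3, h2]

theorem toP_derL {B : Ds} {R : Type} [CommRing R] {φ : El → R} (h : Hm B φ) (F : List El) :
    toP φ (derL B F) = derivative (toP φ F) := by
  ext i
  rw [coeff_derivative, coeff_toP h.nil, coeff_toP h.nil]
  by_cases hi : i < F.length - 1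
  · have : (derL B F).getD i [] = mul B (cst B (i + 1)) (F.getD (i + 1) []) := by
      simp [derL, List.getD_eq_getElem?_getD, hi]
    rw [this, h.mul, h.cst]
    push_cast
    ring
  · rw [List.getD_eq_default _ _ (by simp [derL]; omega), List.getD_eq_default _ _ (by omega),
      h.nil, zero_mul]

theorem eqs1_val (hT : StmtTAY) {B : Ds} {R : Type} [CommRing R] (π : Pres B R) (fl : List El)
    (d m l : ℕ) (f : R[X]) (pat : Pat) (b : List El) (hI : Inp π (RingHom.id R) fl d f)
    (hl : 0 < l * mm d m) :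
    (eqs1 B fl d m l pat b).map π.val = eqP f d m l pat fun i => π.val (b.getD i []) := by
  obtain ⟨-, h2, h3⟩ := hT B R R π (RingHom.id R) fl d m l f b hI hl
  have h := π.hm
  have hf : toP π.val (fullL B fl) = f := by
    rw [fullL, toP_append_one fl (by rw [h.cst, Nat.cast_one]), ← hI.2.2, Polynomial.map_id]
  simp only [RingHom.id_apply] at h2 h3
  simp only [eqs1, basA, fixA, eqP, List.map_append, List.map_flatMap, List.map_map]
  congr 1
  · congr 1
    · refine List.flatMap_congr fun j _ => List.flatMap_congr fun i _ => ?_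
      simp only [List.map_cons, List.map_nil, h.sub, h.mul, h.horner, h.cst, toP_derL h, hf, xs,
        zs, Nat.cast_one, add_zero]
    · refine List.map_congr_left fun j _ => ?_
      simp only [Function.comp_apply]
      split_ifs
      · simp only [thA, th, h.sub, h.mul, h.pw, h.horner, h.cst, hf, xs, Nat.cast_one, add_zero]
      · rw [h.cst, Nat.cast_zero]
  · refine List.map_congr_left fun ρ hρ => ?_
    rw [Function.comp_apply, h3 _ ρ (rows_lt hρ)]
    refine vanP_congr _ _ _ _ _ (fun e he J hJ => ?_) ρ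
    rw [tb, ent_mat _ he hJ, h2 _ e J fun ρ' => sel_lt]

theorem eqP_zero {R : Type} [CommRing R] (F : R[X]) (d m l : ℕ) (pat : Pat) (b : ℕ → R) :
    (∀ x ∈ eqP F d m l pat b, x = 0) ↔ Bas F d m b ∧ H87.Fix F d m (pat.2.1.getD · 0) b ∧
      ∀ ρ ∈ rowsL d m l pat.1, vanP F d m l b (crP F d m l b (selR d m l pat)) ρ = 0 := by
  simp only [eqP, List.forall_mem_append, List.forall_mem_flatMap, List.forall_mem_map,
    List.forall_mem_cons, List.mem_range, sub_eq_zero, and_assoc, Bas, H87.Fix]
  refine and_congr ?_ (and_congr ?_ Iff.rfl)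
  · refine forall₂_congr fun j _ => forall₂_congr fun i _ => ?_
    simp
  · refine forall₂_congr fun j _ => ?_
    split_ifs with k
    · exact ⟨fun h _ => h, fun h => h k⟩
    · exact ⟨fun _ h => absurd h k, fun _ => rfl⟩

section deg
variable {F : Type} [CommRing F] {v : ℕ}

theorem deg_ex (i : ℕ) :
    (ex (MvPolynomial.X : Fin v → MvPolynomial (Fin v) F) i).totalDegree ≤ 1 := by
  unfold ex
  split_ifs with h
  · exact (MvPolynomial.isHomogeneous_X F _).totalDegree_le
  · simp

theorem deg_eval (f : F[X]) {d : ℕ} (hf : f.natDegree ≤ d) {p : MvPolynomial (Fin v) F}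
    (hp : p.totalDegree ≤ 1) :
    ((f.map (MvPolynomial.C : F →+* MvPolynomial (Fin v) F)).eval p).totalDegree ≤ d := by
  rw [eval_map, eval₂_eq_sum_range]
  refine MvPolynomial.totalDegree_finsetSum_le fun i hi => ?_
  have hi' := Finset.mem_range.1 hi
  refine (MvPolynomial.totalDegree_mul _ _).trans ?_
  rw [MvPolynomial.totalDegree_C, zero_add]
  refine (MvPolynomial.totalDegree_pow _ _).trans ?_
  have := Nat.mul_le_mul_left i hp
  omega

theorem deg_det {n e : ℕ} (M : Matrix (Fin n) (Fin n) (MvPolynomial (Fin v) F))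
    (h : ∀ i j, (M i j).totalDegree ≤ e) : M.det.totalDegree ≤ n * e := by
  rw [Matrix.det_apply']
  refine MvPolynomial.totalDegree_finsetSum_le fun σ _ => ?_
  refine (MvPolynomial.totalDegree_mul _ _).trans ?_
  have h1 : (((Equiv.Perm.sign σ : ℤˣ) : ℤ) : MvPolynomial (Fin v) F).totalDegree = 0 := by
    rw [← map_intCast (MvPolynomial.C : F →+* MvPolynomial (Fin v) F),
      MvPolynomial.totalDegree_C]
  rw [h1, zero_add]
  refine (MvPolynomial.totalDegree_finsetProd _ _).trans ?_
  refine (Finset.sum_le_card_nsmul _ _ e fun i _ => h _ _).trans ?_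
  simp

theorem deg_sub {p q : MvPolynomial (Fin v) F} {a : ℕ} (hp : p.totalDegree ≤ a)
    (hq : q.totalDegree ≤ a) : (p - q).totalDegree ≤ a :=
  (MvPolynomial.totalDegree_sub _ _).trans (max_le hp hq)

theorem length_cols (d m N : ℕ) : (cols d m N).length ≤ (N + 1) * d ^ m := by
  refine (List.length_filter_le _ _).trans ?_
  rw [List.length_flatMap, sum_map_range]
  refine (Finset.sum_le_card_nsmul _ _ (N + 1) fun i _ => by simp).trans ?_
  simp [mul_comm]

theorem eqP_deg (hD : StmtDEGT) (f : F[X]) (d m l : ℕ) (pat : Pat) (hf : f.natDegree ≤ d)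
    (hd : 0 < d) (hl : 0 < l * mm d m) :
    ∀ x ∈ eqP (f.map (MvPolynomial.C : F →+* MvPolynomial (Fin v) F)) d m l pat
      (ex MvPolynomial.X), x.totalDegree < dM d m l := by
  have hG : 1 ≤ Gc d m := Nat.le_add_left _ _
  have h1 : d + d ≤ (2 * Gc d m + 1) * d := by nlinarith
  have hev : ∀ j i, ((f.map (MvPolynomial.C : F →+* MvPolynomial (Fin v) F)).eval
      (xs m (ex MvPolynomial.X) j i)).totalDegree ≤ d := fun j i => deg_eval f hf (deg_ex _)
  have h0 : (1 : MvPolynomial (Fin v) F).totalDegree = 0 := MvPolynomial.totalDegree_one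
  simp only [eqP, List.forall_mem_append, List.forall_mem_flatMap, List.forall_mem_map,
    List.forall_mem_cons]
  refine ⟨⟨fun j _ i _ => ⟨?_, ?_, by simp⟩, fun j _ => ?_⟩, fun ρ hρ => ?_⟩
  · have := deg_sub (hev j i) (hev j 0)
    unfold dM
    omega
  · have h2 : (zs m (ex MvPolynomial.X) j i * (derivative (f.map
        (MvPolynomial.C : F →+* MvPolynomial (Fin v) F))).eval
          (xs m (ex MvPolynomial.X) j i)).totalDegree ≤ 1 + d := by
      refine (MvPolynomial.totalDegree_mul _ _).trans (add_le_add (deg_ex _) ?_)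
      rw [derivative_map]
      exact deg_eval _ ((natDegree_derivative_le f).trans (by omega)) (deg_ex _)
    have := deg_sub h2 (h0.trans_le (Nat.zero_le _))
    unfold dM
    omega
  · split_ifs
    · have h2 : ∀ G, (((f.map (MvPolynomial.C : F →+* MvPolynomial (Fin v) F)).eval
          (xs m (ex MvPolynomial.X) j 0)) ^ G - 1).totalDegree ≤ G * d := fun G =>
        deg_sub ((MvPolynomial.totalDegree_pow _ _).trans (Nat.mul_le_mul_left _ (hev j 0)))
          (h0.trans_le (Nat.zero_le _))
      have h3 := (MvPolynomial.totalDegree_mul _ _).trans (add_le_add (h2 (Gc d m))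
        (h2 (Gc d m + 1)))
      have h4 : Gc d m * d + (Gc d m + 1) * d = (2 * Gc d m + 1) * d := by ring
      unfold th dM
      omega
    · rw [MvPolynomial.totalDegree_zero]
      exact Nat.succ_pos _
  · have hrow : ∀ i, ((selR d m l pat).getD i (0, 0)).2 < l * mm d m := fun i => by
      by_cases hi : i < (selR d m l pat).length
      · rw [List.getD_eq_getElem _ _ hi]
        exact sel_lt (List.getElem_mem hi)
      · rw [List.getD_eq_default _ _ (not_lt.1 hi)]
        exact hl
    have hcr : ∀ e J, (crP (f.map (MvPolynomial.C : F →+* MvPolynomial (Fin v) F)) d m l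
        (ex MvPolynomial.X) (selR d m l pat) e J).totalDegree ≤
          (l * N0 d m + 1) * d ^ m * dE d m l := fun e J => by
      refine (deg_det (e := dE d m l) _ fun i j => ?_).trans
        (Nat.mul_le_mul_right _ (length_cols _ _ _))
      rw [Matrix.of_apply]
      split_ifs
      · rw [MvPolynomial.totalDegree_neg]
        exact hD F f d m l v _ _ _ hf hd (hrow i)
      · exact hD F f d m l v _ _ _ hf hd (hrow i)
    have h2 : (vanP (f.map (MvPolynomial.C : F →+* MvPolynomial (Fin v) F)) d m l
        (ex MvPolynomial.X) (crP (f.map (MvPolynomial.C : F →+* MvPolynomial (Fin v) F)) d m l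
        (ex MvPolynomial.X) (selR d m l pat)) ρ).totalDegree ≤
          (l * N0 d m + 1) * d ^ m * dE d m l + dE d m l :=
      MvPolynomial.totalDegree_finsetSum_le fun J _ =>
        MvPolynomial.totalDegree_finsetSum_le fun e _ => (MvPolynomial.totalDegree_mul _ _).trans
          (add_le_add (hcr e J) (hD F f d m l v _ _ _ hf hd (rows_lt hρ)))
    unfold dM
    rw [add_mul ((l * N0 d m + 1) * d ^ m), one_mul]
    omega

end deg

theorem sys1_ (hN : StmtNAT) (hT : StmtTAY) (hD : StmtDEGT) : StmtSYS1 := by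
  intro F k _ _ D π ι fl d m l f pat a hI hl hm hd
  have hlm : 0 < l * mm d m := by
    have : 0 < d := by omega
    unfold mm N0
    positivity
  have hne : List.replicate (dM d m l) ([] : El) ≠ [] := by
    rw [Ne, List.replicate_eq_nil_iff]
    exact Nat.succ_ne_zero _
  obtain ⟨R', _, ⟨T⟩⟩ := exists_tow π hne (nV d m)
  obtain ⟨f₀, hf₀⟩ : ∃ f₀, f₀ = toM π.val fl := ⟨_, rfl⟩
  have hdeg : f₀.natDegree ≤ d := by rw [hf₀, toM_natDegree, hI.1]
  obtain ⟨y, hy⟩ : ∃ y, y = (tower D (List.replicate (dM d m l) []) (nV d m)).2 := ⟨_, rfl⟩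
  have hI' : Inp T.π' (RingHom.id R') fl d (f₀.map T.inc) := by
    refine ⟨hI.1, fun x hx => (hI.2.1 x hx).trans (T.dim_le hne), ?_⟩
    rw [Polynomial.map_id, hf₀, toM_map, toM, toM,
      toP_congr fun x hx => T.val_inc x (hI.2.1 x hx)]
  have h1 := eqs1_val hT T.π' fl d m l _ pat y hI' hlm
  have h2 := eqP_map hN (MvPolynomial.eval₂Hom T.inc
    fun i : Fin (nV d m) => T.π'.val (y.getD i [])) (f₀.map MvPolynomial.C) d m l pat
    (ex MvPolynomial.X)
  have e2 : (fun i => MvPolynomial.eval₂Hom T.inc (fun i : Fin (nV d m) => T.π'.val (y.getD i []))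
      (ex MvPolynomial.X i)) = fun i => T.π'.val (y.getD i []) := by
    funext i
    unfold ex
    split_ifs with h
    · simp
    · rw [map_zero, List.getD_eq_default _ _ (by rw [hy, T.len]; omega), T.π'.hm.nil]
  rw [e2, Polynomial.map_map, MvPolynomial.eval₂Hom_comp_C, ← h1] at h2
  have h3 := eqP_map hN (MvPolynomial.eval₂Hom ι a) (f₀.map MvPolynomial.C) d m l pat
    (ex MvPolynomial.X)
  have e3 : (fun i => MvPolynomial.eval₂Hom ι a (ex MvPolynomial.X i)) = ex a := by
    funext i
    unfold ex
    split_ifs with h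
    · simp
    · rw [map_zero]
  have hf : f₀.map ι = f := by rw [hf₀]; exact hI.2.2
  rw [e3, Polynomial.map_map, MvPolynomial.eval₂Hom_comp_C, hf] at h3
  have h4 : (sys1 D fl d m l pat).map (fun g => MvPolynomial.eval a
      (toMv (fun x => ι (π.val x)) (dM d m l) (nV d m) g)) = eqP f d m l pat (ex a) := by
    rw [← h3, sys1, List.map_map, ← hy]
    refine map_of_map h2.symm fun x E hE hx => ?_
    have h5 := eq_sum_exps E (eqP_deg hD f₀ d m l pat hdeg (by omega) hlm E hE)
    have h6 : toMv (fun x => ι (π.val x)) (dM d m l) (nV d m)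
        ((List.range (dM d m l ^ nV d m)).map (chunk D x)) = MvPolynomial.map ι E := by
      conv_rhs => rw [h5, map_sum]
      refine Finset.sum_congr rfl fun J hJ => ?_
      have hJ' := Finset.mem_range.1 hJ
      have h7 : ((List.range (dM d m l ^ nV d m)).map (chunk D x)).getD J [] = chunk D x J := by
        simp [List.getD_eq_getElem?_getD, hJ']
      rw [MvPolynomial.map_monomial, h7, ← T.trunc E (by rw [← hy]; exact hx) hJ']
    rw [Function.comp_apply, h6, MvPolynomial.eval_map]
    rfl
  rw [← eqP_zero, ← h4, List.forall_mem_map]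
  constructor
  · intro h g hg
    obtain ⟨i, hi, rfl⟩ := List.getElem_of_mem hg
    have := h i hi
    rwa [List.getD_eq_getElem _ _ hi] at this
  · intro h i hi
    rw [List.getD_eq_getElem _ _ hi]
    exact h _ (List.getElem_mem hi)

end Pool.Agent.MP_cce4c9_lc.H30
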